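import Pool.Agent.Helper42.SLR.Defs

/-! Project SL, module RB, packet COMB. -/

set_option autoImplicit false

namespace Pool.Agent.Helper18.SLR

open Pool.Agent.Helper42.SLR

theorem comb : S_COMB := by
  intro N K l hN hl τ hτ
  classical
  set S : Finset (Fin l) := Finset.univ.filter (fun i ↦ ∑ n, τ i n < K) with hS
  have hcard : S.card ≤ K ^ N := by
    have hsub : S.image (fun i ↦ fun n ↦ τ i n) ⊆ Fintype.piFinset (fun _ : Fin N ↦ Finset.range K) := by
      intro f hf
      obtain ⟨i, hi, rfl⟩ := Finset.mem_image.mp hf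
      rw [Fintype.mem_piFinset]
      intro n
      have hi' : ∑ n, τ i n < K := (Finset.mem_filter.mp hi).2
      have : τ i n ≤ ∑ n, τ i n := Finset.single_le_sum (f := fun n ↦ τ i n) (fun _ _ ↦ Nat.zero_le _)
        (Finset.mem_univ n)
      exact Finset.mem_range.mpr (by omega)
    have hinj : Function.Injective (fun i : Fin l ↦ fun n ↦ τ i n) := by
      intro i j hij
      apply hτ
      ext n
      exact congrFun hij n
    calc S.card = (S.image (fun i ↦ fun n ↦ τ i n)).card := (Finset.card_image_of_injective _ hinj).symm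
      _ ≤ (Fintype.piFinset (fun _ : Fin N ↦ Finset.range K)).card := Finset.card_le_card hsub
      _ = K ^ N := by simp
  have hc2 : S.card + Sᶜ.card = l := by
    rw [Finset.card_add_card_compl]; simp
  have h1 : Sᶜ.card * K ≤ ∑ i, ∑ n, τ i n := by
    calc Sᶜ.card * K = ∑ i ∈ Sᶜ, K := by simp
      _ ≤ ∑ i ∈ Sᶜ, ∑ n, τ i n := by
          apply Finset.sum_le_sum
          intro i hi
          rw [hS, Finset.mem_compl, Finset.mem_filter] at hi
          by_contra hcon
          exact hi ⟨Finset.mem_univ _, by omega⟩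
      _ ≤ ∑ i, ∑ n, τ i n :=
          Finset.sum_le_univ_sum_of_nonneg (fun _ ↦ Nat.zero_le _)
  have h2 : l ≤ 2 * Sᶜ.card := by omega
  calc l * K ≤ (2 * Sᶜ.card) * K := Nat.mul_le_mul_right _ h2
    _ = 2 * (Sᶜ.card * K) := by ring
    _ ≤ 2 * ∑ i, ∑ n, τ i n := Nat.mul_le_mul_left _ h1

end Pool.Agent.Helper18.SLR
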