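import Pool.Agent.Helper42.SLR.Defs
import Pool.Agent.Helper51.SixExp.Core

/-! Project SL, module RB, packet LIOU. -/

set_option autoImplicit false

namespace Pool.Agent.Helper18.SLR

open Pool.Agent.Helper42.SLR Pool.Agent.Helper51.SigLeo Pool.Agent.Helper51.SixExp NumberField Module

theorem house_neg' {L : Type*} [Field L] [NumberField L] (x : L) : house (-x) = house x := by
  simp [house]

theorem liou : S_LIOU := by
  intro p _ k _ _ _ L _ _ ι l m H M hH hM hdet hle
  have hlv := liouville (p := p) ι hdet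
  have hhouse : house (M.det : L) ≤ (l.factorial : ℝ) * H ^ l := by
    have h1 : (M.det : L) = ∑ σ : Equiv.Perm (Fin l), ((Equiv.Perm.sign σ : ℤ) : L) *
        ∏ i, (M (σ i) i : L) := by
      rw [Matrix.det_apply']
      push_cast
      rfl
    rw [h1]
    calc house (∑ σ : Equiv.Perm (Fin l), ((Equiv.Perm.sign σ : ℤ) : L) * ∏ i, (M (σ i) i : L))
        ≤ ∑ σ : Equiv.Perm (Fin l), house (((Equiv.Perm.sign σ : ℤ) : L) * ∏ i, (M (σ i) i : L)) :=
          house_sum_le_sum_house _ _
      _ ≤ ∑ σ : Equiv.Perm (Fin l), H ^ l := by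
          apply Finset.sum_le_sum
          intro σ _
          have h2 : house (((Equiv.Perm.sign σ : ℤ) : L) * ∏ i, (M (σ i) i : L)) =
              house (∏ i, (M (σ i) i : L)) := by
            rcases Int.units_eq_one_or (Equiv.Perm.sign σ) with h | h
            · rw [h]; simp
            · rw [h]; simp [house_neg']
          rw [h2]
          calc house (∏ i, (M (σ i) i : L)) ≤ ∏ i, house (M (σ i) i : L) := house_prod_le' _ _
            _ ≤ ∏ _i : Fin l, H := Finset.prod_le_prod (fun _ _ ↦ house_nonneg _) (fun i _ ↦ hM _ _)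
            _ = H ^ l := by simp
      _ = (l.factorial : ℝ) * H ^ l := by
          rw [Finset.sum_const, Finset.card_univ, Fintype.card_perm, Fintype.card_fin, nsmul_eq_mul]
  have hp : (0 : ℝ) < p := by exact_mod_cast (Fact.out : p.Prime).pos
  have hpm : (0 : ℝ) < (p : ℝ) ^ m := pow_pos hp m
  have h3 : house (M.det : L) ^ finrank ℚ L ≤ ((l.factorial : ℝ) * H ^ l) ^ finrank ℚ L :=
    pow_le_pow_left₀ (house_nonneg _) hhouse _
  have h4 : (1 : ℝ) ≤ ((p : ℝ)⁻¹) ^ m * ((l.factorial : ℝ) * H ^ l) ^ finrank ℚ L := by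
    refine le_trans hlv ?_
    exact mul_le_mul hle h3 (pow_nonneg (house_nonneg _) _) (by positivity)
  calc (p : ℝ) ^ m = (p : ℝ) ^ m * 1 := by ring
    _ ≤ (p : ℝ) ^ m * (((p : ℝ)⁻¹) ^ m * ((l.factorial : ℝ) * H ^ l) ^ finrank ℚ L) :=
        mul_le_mul_of_nonneg_left h4 hpm.le
    _ = ((l.factorial : ℝ) * H ^ l) ^ finrank ℚ L := by
        rw [← mul_assoc, ← mul_pow, mul_inv_cancel₀ hp.ne', one_pow, one_mul]

end Pool.Agent.Helper18.SLR
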